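import Pool.Agent.helper93.TV.Spec2

/-! Row SE: expansion of the left combs in the right combs. -/

namespace Pool.Agent.helper93.TV

open BigOperators Finset Matrix

theorem SE : SE_stmt := by
  intro _ hSL hSC I V _ _ _ _ D X c m bp J hctx hcalc hJ α γ w hαγ hw
  obtain ⟨hL1, hL2, hL3⟩ := hSL I V D X c m bp J hctx hcalc hJ
  have hK := hSC I V D X c m bp J hctx hcalc hJ (D.s1 α) (D.s2 α) (D.s2 γ)
  -- the left side through the kernel
  have h1 : Lv m J α γ w = ∑ w' ∈ lists V (2 * m), Lv m J α γ w' *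
      ∑ α' ∈ univ.filter (fun α' => D.s1 α' = D.s1 α ∧ D.s2 α' = D.s2 α),
        ∑ γ' ∈ univ.filter (fun γ' => D.s1 γ' = D.t α' ∧ D.s2 γ' = D.s2 γ),
          star (Lv m J α' γ' w') * Lv m J α' γ' w := by
    simp only [Finset.mul_sum]
    rw [Finset.sum_comm]
    have h2 : ∀ α' ∈ univ.filter (fun α' => D.s1 α' = D.s1 α ∧ D.s2 α' = D.s2 α),
        ∑ w' ∈ lists V (2 * m), ∑ γ' ∈ univ.filter (fun γ' => D.s1 γ' = D.t α' ∧ D.s2 γ' = D.s2 γ),
          Lv m J α γ w' * (star (Lv m J α' γ' w') * Lv m J α' γ' w) =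
        ∑ γ' ∈ univ.filter (fun γ' => D.s1 γ' = D.t α' ∧ D.s2 γ' = D.s2 γ),
          if α = α' ∧ γ = γ' then Lv m J α' γ' w else 0 := by
      intro α' hα'
      rw [mem_filter] at hα'
      rw [Finset.sum_comm]
      refine Finset.sum_congr rfl fun γ' hγ' => ?_
      rw [mem_filter] at hγ'
      have h3 := hL1 α γ α' γ' hα'.2.1.symm hα'.2.2.symm hγ'.2.2.symm hαγ hγ'.2.1.symm
      calc ∑ w' ∈ lists V (2 * m), Lv m J α γ w' * (star (Lv m J α' γ' w') * Lv m J α' γ' w)
          = (∑ w' ∈ lists V (2 * m), Lv m J α γ w' * star (Lv m J α' γ' w')) *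
              Lv m J α' γ' w := by
            rw [Finset.sum_mul]
            exact Finset.sum_congr rfl fun w' _ => by ring
        _ = _ := by
            rw [h3]
            split_ifs <;> simp
    rw [Finset.sum_congr rfl h2]
    rw [Finset.sum_eq_single α]
    · rw [Finset.sum_eq_single γ]
      · simp
      · intro γ' _ hne
        rw [if_neg]
        rintro ⟨_, h⟩
        exact hne h.symm
      · intro hn
        exact absurd (mem_filter.mpr ⟨mem_univ _, hαγ.symm, rfl⟩) hn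
    · intro α' _ hne
      refine Finset.sum_eq_zero fun γ' _ => ?_
      rw [if_neg]
      rintro ⟨h, _⟩
      exact hne h.symm
    · intro hn
      exact absurd (mem_filter.mpr ⟨mem_univ _, rfl, rfl⟩) hn
  -- the right side
  have h4 : ∀ w' ∈ lists V (2 * m), Lv m J α γ w' *
      ∑ α' ∈ univ.filter (fun α' => D.s1 α' = D.s1 α ∧ D.s2 α' = D.s2 α),
        ∑ γ' ∈ univ.filter (fun γ' => D.s1 γ' = D.t α' ∧ D.s2 γ' = D.s2 γ),
          star (Lv m J α' γ' w') * Lv m J α' γ' w =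
      ∑ β, ∑ δ, if (D.s1 β = D.s2 α ∧ D.s2 β = D.s2 γ) ∧ (D.s1 δ = D.s1 α ∧ D.s2 δ = D.t β) then
        Lv m J α γ w' * star (D.Rv X c m bp J β δ w') * D.Rv X c m bp J β δ w else 0 := by
    intro w' hw'
    rw [← hK w' w hw' hw, Finset.mul_sum, Finset.sum_filter]
    refine Finset.sum_congr rfl fun β _ => ?_
    by_cases hβ : D.s1 β = D.s2 α ∧ D.s2 β = D.s2 γ
    · rw [if_pos hβ, Finset.mul_sum, Finset.sum_filter]
      refine Finset.sum_congr rfl fun δ _ => ?_
      by_cases hδ : D.s1 δ = D.s1 α ∧ D.s2 δ = D.t β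
      · rw [if_pos hδ, if_pos ⟨hβ, hδ⟩]
        ring
      · rw [if_neg hδ, if_neg (fun h => hδ h.2)]
    · rw [if_neg hβ]
      symm
      exact Finset.sum_eq_zero fun δ _ => by rw [if_neg (fun h => hβ h.1)]
  rw [h1, Finset.sum_congr rfl h4, Finset.sum_comm]
  refine Finset.sum_congr rfl fun β _ => ?_
  rw [Finset.sum_comm]
  refine Finset.sum_congr rfl fun δ _ => ?_
  by_cases hc : D.cp α γ β δ
  · obtain ⟨c1, c2, c3, c4, c5, c6⟩ := hc
    rw [FD.form, if_pos ⟨c1, c2, c3, c4, c5, c6⟩, Finset.sum_mul]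
    exact Finset.sum_congr rfl fun w' _ => by
      rw [if_pos ⟨⟨c4.symm, c5.symm⟩, ⟨c3.symm, c2.symm⟩⟩]
  · rw [FD.form, if_neg hc, zero_mul]
    refine Finset.sum_eq_zero fun w' hw' => ?_
    by_cases hf : (D.s1 β = D.s2 α ∧ D.s2 β = D.s2 γ) ∧ (D.s1 δ = D.s1 α ∧ D.s2 δ = D.t β)
    · rw [if_pos hf]
      by_cases hz1 : Lv m J α γ w' = 0
      · rw [hz1]
        ring
      · by_cases hz2 : D.Rv X c m bp J β δ w' = 0
        · rw [hz2]
          simp
        · exfalso
          apply hc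
          have e1 := (hL2 α γ w' hw' hαγ hz1).2
          have e2 := (hL3 β δ w' hz2).2.2
          refine ⟨hαγ, hf.2.2.symm, hf.2.1.symm, hf.1.1.symm, hf.1.2.symm, ?_⟩
          rw [← e1, ← e2, hf.2.1]
    · rw [if_neg hf]

end Pool.Agent.helper93.TV
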